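import Mathlib

namespace Pool.Agent.Results.MP_31ff53_gt.NotK

open Set Filter TopologicalSpace

/-- `cz f = {x | f x = 1}`, with `{0,1}` modelled by `Bool` (`false < true`). -/
def cz {X : Type} (f : X → Bool) : Set X := {x | f x = true}

/-- `{cz f | f ∈ H}` is a pretty base: a base, all `f ∈ H` continuous, `H` is `(ω₁,∞)`-nested.
`1 - d` is `fun x => !d x`. -/
def IsPretty (X : Type) [TopologicalSpace X] (H : Set (X → Bool)) : Prop :=
  IsTopologicalBasis (cz '' H) ∧ (∀ f ∈ H, Continuous f) ∧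
    ∀ C D : Set (X → Bool), C ⊆ H → D ⊆ H → C.Countable →
      (∀ c ∈ C, ∀ d ∈ D, c ≤ fun x => !d x) →
      ∃ f ∈ H, (∀ c ∈ C, c ≤ f) ∧ ∀ d ∈ D, f ≤ fun x => !d x

/-- The cotopology generated by the complements of closures of members of `B` is compact. -/
def IsCocompact (X : Type) [TopologicalSpace X] (B : Set (Set X)) : Prop :=
  @CompactSpace X (generateFrom {U | ∃ s ∈ B, U = (closure s)ᶜ})

/-- `X` is a k-space. -/
def IsKSpace (X : Type) [TopologicalSpace X] : Prop :=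
  ∀ A : Set X, (∀ K : Set X, IsCompact K → IsClosed ((Subtype.val : K → X) ⁻¹' A)) → IsClosed A

abbrev La : Type := ℕ → Bool
abbrev Ka : Type := La → Bool
abbrev W : Type := Ka → Set La

def Stable (S : Set La) (I : Set Ka) (b : Set W) : Prop :=
  ∀ w ∈ b, ∀ w' : W, (∀ i ∈ I, w i ⊆ S → w' i = w i) → w' ∈ b

def B : Set (Set W) := {b | ∃ S I, S.Countable ∧ I.Countable ∧ Stable S I b}

lemma Stable.mono {S S' : Set La} {I I' : Set Ka} {b : Set W} (h : Stable S I b) (hS : S ⊆ S')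
    (hI : I ⊆ I') : Stable S' I' b :=
  fun w hw w' h' => h w hw w' fun i hi hs => h' i (hI hi) (hs.trans hS)

lemma inter_mem {b c : Set W} (hb : b ∈ B) (hc : c ∈ B) : b ∩ c ∈ B := by
  obtain ⟨S, I, hS, hI, h⟩ := hb
  obtain ⟨S', I', hS', hI', h'⟩ := hc
  refine ⟨S ∪ S', I ∪ I', hS.union hS', hI.union hI', fun w hw w' H => ⟨?_, ?_⟩⟩
  · exact h.mono subset_union_left subset_union_left w hw.1 w' H
  · exact h'.mono subset_union_right subset_union_right w hw.2 w' H

lemma iUnion_mem {ι : Type} [Countable ι] (b : ι → Set W) (hb : ∀ n, b n ∈ B) :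
    (⋃ n, b n) ∈ B := by
  choose S I hS hI h using hb
  refine ⟨⋃ n, S n, ⋃ n, I n, countable_iUnion hS, countable_iUnion hI, fun w hw w' H => ?_⟩
  obtain ⟨n, hn⟩ := mem_iUnion.1 hw
  exact mem_iUnion.2 ⟨n, (h n).mono (subset_iUnion S n) (subset_iUnion I n) w hn w' H⟩

lemma univ_mem' : (univ : Set W) ∈ B :=
  ⟨∅, ∅, countable_empty, countable_empty, fun _ _ _ _ => trivial⟩

def L (i : Ka) (S : Set La) : Set W := {w | w i ⊆ S}

lemma L_mem (i : Ka) {S : Set La} (hS : S.Countable) : L i S ∈ B :=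
  ⟨S, {i}, hS, countable_singleton i, fun w hw w' H => by
    have := H i rfl hw
    change w' i ⊆ S
    rw [this]; exact hw⟩

lemma eq_mem (i : Ka) {S : Set La} (hS : S.Countable) : {w : W | w i = S} ∈ B :=
  ⟨S, {i}, hS, countable_singleton i, fun w hw w' H => by
    have h1 : w i = S := hw
    have := H i rfl h1.le
    change w' i = S
    rw [this]; exact hw⟩

def Good (q : Set (Set W)) : Prop :=
  q ⊆ B ∧ univ ∈ q ∧ ∅ ∉ q ∧ ∀ b ∈ q, ∀ c ∈ q, b ∩ c ∈ q

def X : Type := {q : Set (Set W) // Maximal Good q}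

lemma extend (F : Filter W) [F.NeBot] : ∃ q : X, ∀ b ∈ B, b ∈ F → b ∈ q.1 := by
  have h0 : Good {b | b ∈ B ∧ b ∈ F} :=
    ⟨fun _ h => h.1, ⟨univ_mem', Filter.univ_mem⟩, fun h => F.empty_notMem h.2,
      fun b hb c hc => ⟨inter_mem hb.1 hc.1, Filter.inter_mem hb.2 hc.2⟩⟩
  obtain ⟨m, hm, hmax⟩ := zorn_subset_nonempty {q | Good q} (by
    intro c hc hchain hne
    refine ⟨⋃₀ c, ⟨?_, ?_, ?_, ?_⟩, fun s hs => subset_sUnion_of_mem hs⟩
    · rintro b ⟨q, hq, hb⟩
      exact (hc hq).1 hb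
    · obtain ⟨q, hq⟩ := hne
      exact ⟨q, hq, (hc hq).2.1⟩
    · rintro ⟨q, hq, hb⟩
      exact (hc hq).2.2.1 hb
    · rintro b ⟨q, hq, hb⟩ d ⟨r, hr, hd⟩
      rcases hchain.total hq hr with h | h
      · exact ⟨r, hr, (hc hr).2.2.2 b (h hb) d hd⟩
      · exact ⟨q, hq, (hc hq).2.2.2 b hb d (h hd)⟩) _ h0
  exact ⟨⟨m, hmax⟩, fun b hb hF => hm ⟨hb, hF⟩⟩

lemma X.sub (q : X) {b : Set W} (h : b ∈ q.1) : b ∈ B := q.2.prop.1 h

lemma X.inter (q : X) {b c : Set W} (hb : b ∈ q.1) (hc : c ∈ q.1) : b ∩ c ∈ q.1 :=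
  q.2.prop.2.2.2 b hb c hc

lemma X.ne (q : X) {b : Set W} (hb : b ∈ q.1) : b.Nonempty := by
  rw [nonempty_iff_ne_empty]
  rintro rfl
  exact q.2.prop.2.2.1 hb

lemma X.disj (q : X) {b : Set W} (hb : b ∈ B) (h : b ∉ q.1) : ∃ c ∈ q.1, c ∩ b = ∅ := by
  by_contra hn
  push Not at hn
  have hg : Good {d | d ∈ B ∧ ∃ c ∈ q.1, c ∩ b ⊆ d} := by
    refine ⟨fun _ h => h.1, ⟨univ_mem', univ, q.2.prop.2.1, subset_univ _⟩, ?_, ?_⟩
    · rintro ⟨_, c, hc, hcb⟩
      exact (hn c hc).ne_empty (subset_empty_iff.1 hcb)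
    · rintro d ⟨hd, c, hc, hcb⟩ e ⟨he, c', hc', hcb'⟩
      exact ⟨inter_mem hd he, c ∩ c', q.inter hc hc', fun w hw =>
        ⟨hcb ⟨hw.1.1, hw.2⟩, hcb' ⟨hw.1.2, hw.2⟩⟩⟩
  have hle : q.1 ⊆ {d | d ∈ B ∧ ∃ c ∈ q.1, c ∩ b ⊆ d} :=
    fun d hd => ⟨q.sub hd, d, hd, inter_subset_left⟩
  exact h (q.2.2 hg hle ⟨hb, univ, q.2.prop.2.1, inter_subset_right⟩)

lemma X.up (q : X) {b c : Set W} (hb : b ∈ q.1) (hc : c ∈ B) (h : b ⊆ c) : c ∈ q.1 := by
  by_contra hn
  obtain ⟨d, hd, hdc⟩ := q.disj hc hn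
  obtain ⟨w, hw⟩ := q.ne (q.inter hd hb)
  have : w ∈ d ∩ c := ⟨hw.1, h hw.2⟩
  rw [hdc] at this
  exact this

def st (b : Set W) : Set X := {q | b ∈ q.1}

instance : TopologicalSpace X := generateFrom (st '' B)

lemma st_inter {b c : Set W} (hb : b ∈ B) (hc : c ∈ B) : st (b ∩ c) = st b ∩ st c := by
  ext q
  exact ⟨fun h => ⟨q.up h hb inter_subset_left, q.up h hc inter_subset_right⟩,
    fun h => q.inter h.1 h.2⟩

lemma basis : IsTopologicalBasis (st '' B) := by
  have h := isTopologicalBasis_of_subbasis_of_inter (r := st '' B) rfl (by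
    rintro _ ⟨b, hb, rfl⟩ _ ⟨c, hc, rfl⟩
    exact ⟨b ∩ c, inter_mem hb hc, st_inter hb hc⟩)
  rwa [insert_eq_of_mem] at h
  exact ⟨univ, univ_mem', eq_univ_of_forall fun q => q.2.prop.2.1⟩

lemma st_open {b : Set W} (hb : b ∈ B) : IsOpen (st b) := basis.isOpen ⟨b, hb, rfl⟩

lemma st_closed {b : Set W} (hb : b ∈ B) : IsClosed (st b) := by
  rw [← isOpen_compl_iff, isOpen_iff_forall_mem_open]
  intro q hq
  obtain ⟨c, hc, hcb⟩ := q.disj hb hq
  refine ⟨st c, fun r hr hrb => ?_, st_open (q.sub hc), hc⟩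
  exact (r.ne (r.inter hr hrb)).ne_empty hcb

lemma st_clopen {b : Set W} (hb : b ∈ B) : IsClopen (st b) := ⟨st_closed hb, st_open hb⟩

instance : T0Space X := by
  refine ⟨fun q r h => Subtype.ext (Set.ext fun b => ⟨fun hb => ?_, fun hb => ?_⟩)⟩
  · exact (h.mem_open_iff (st_open (q.sub hb))).1 hb
  · exact (h.mem_open_iff (st_open (r.sub hb))).2 hb

instance : CompletelyRegularSpace X := by
  classical
  refine ⟨fun x K hK hx => ?_⟩
  obtain ⟨_, ⟨b, hb, rfl⟩, hxb, hbK⟩ := basis.exists_subset_of_mem_open hx hK.isOpen_compl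
  refine ⟨fun y => if y ∈ st b then 0 else 1, ?_, if_pos hxb, fun y hy => if_neg fun h => hbK h hy⟩
  refine Continuous.if ?_ continuous_const continuous_const
  intro a ha
  have : frontier {y | y ∈ st b} = ∅ := (st_clopen hb).frontier_eq
  rw [this] at ha
  exact ha.elim

instance : T35Space X := {}

def H : Set (X → Bool) := {f | ∃ b ∈ B, cz f = st b}

lemma exists_H {b : Set W} (hb : b ∈ B) : ∃ f ∈ H, cz f = st b := by
  classical
  have : cz (fun q => decide (q ∈ st b)) = st b := by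
    ext q; simp [cz]
  exact ⟨_, ⟨b, hb, this⟩, this⟩

lemma cz_H : cz '' H = st '' B := by
  ext s
  constructor
  · rintro ⟨f, ⟨b, hb, h⟩, rfl⟩
    exact ⟨b, hb, h.symm⟩
  · rintro ⟨b, hb, rfl⟩
    exact exists_H hb

lemma pretty : IsPretty X H := by
  refine ⟨cz_H ▸ basis, ?_, ?_⟩
  · rintro f ⟨b, hb, h⟩
    rw [continuous_bool_rng true]
    have : f ⁻¹' {true} = st b := h
    rw [this]
    exact st_clopen hb
  · intro C D hC hD hc hCD
    have := hc.to_subtype
    choose b hb hcz using fun c : C => hC c.2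
    have hU := iUnion_mem b hb
    obtain ⟨f, hf, hfz⟩ := exists_H hU
    refine ⟨f, hf, fun c hc q => ?_, fun d hd q => ?_⟩
    · rw [Bool.le_iff_imp]
      intro h
      have h1 : q ∈ st (b ⟨c, hc⟩) := hcz ⟨c, hc⟩ ▸ h
      have h2 : q ∈ cz f := hfz ▸ q.up h1 hU (subset_iUnion b _)
      exact h2
    · rw [Bool.le_iff_imp]
      intro h
      obtain ⟨e, he, hez⟩ := hD hd
      by_contra hn
      have h0 : d q = true := by simpa using hn
      have h1 : q ∈ st e := hez ▸ h0
      have h2 : q ∈ st (⋃ c, b c) := hfz ▸ h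
      obtain ⟨w, hw1, hw2⟩ := q.ne (q.inter h2 h1)
      obtain ⟨c, hwc⟩ := mem_iUnion.1 hw1
      obtain ⟨r, hr⟩ := extend (pure w)
      have a1 : r ∈ cz c.1 := (hcz c).symm ▸ hr _ (hb c) hwc
      have a2 : r ∈ cz d := hez.symm ▸ hr _ he hw2
      have a3 := hCD c.1 c.2 d hd r
      have a1' : c.1 r = true := a1
      have a2' : d r = true := a2
      have a4 : d r = false := by simpa using Bool.le_iff_imp.1 a3 a1'
      rw [a2'] at a4
      exact Bool.noConfusion a4

lemma sInter_mem (q : X) {t : Set (Set W)} (ht : t.Finite) (h : t ⊆ q.1) : ⋂₀ t ∈ q.1 := by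
  induction t, ht using Set.Finite.induction_on with
  | empty => simpa using q.2.prop.2.1
  | insert _ _ ih =>
    rw [sInter_insert]
    exact q.inter (h (mem_insert _ _)) (ih ((subset_insert _ _).trans h))

lemma cocompact : IsCocompact X (cz '' H) := by
  rw [cz_H]
  refine @CompactSpace.mk X (generateFrom _) (@isCompact_generateFrom X (generateFrom _) _ rfl _ ?_)
  intro P hP hcov
  by_contra hn
  push Not at hn
  have hne : (Filter.generate {b | b ∈ B ∧ (st b)ᶜ ∈ P}).NeBot := by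
    rw [Filter.generate_neBot_iff]
    intro t ht hfin
    have h1 := hn ((fun b => (st b)ᶜ) '' t) (by
      rintro _ ⟨b, hb, rfl⟩
      exact (ht hb).2) (hfin.image _)
    obtain ⟨q, -, hq⟩ := not_subset.1 h1
    refine q.ne (sInter_mem q hfin fun b hb => ?_)
    by_contra hbq
    exact hq ⟨_, ⟨b, hb, rfl⟩, hbq⟩
  obtain ⟨q, hq⟩ := extend (Filter.generate {b | b ∈ B ∧ (st b)ᶜ ∈ P})
  obtain ⟨U, hU, hqU⟩ := hcov (mem_univ q)
  obtain ⟨_, ⟨b, hb, rfl⟩, rfl⟩ := hP hU
  rw [(st_closed hb).closure_eq] at hU hqU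
  exact hqU (hq b hb (Filter.mem_generate_of_mem ⟨hb, hU⟩))

open Classical in
noncomputable def col (f g : Ka) : La := if h : ∃ x, f x ≠ g x then h.choose else default

lemma col_spec {f g : Ka} (h : f ≠ g) : f (col f g) ≠ g (col f g) := by
  have h' : ∃ x, f x ≠ g x := Function.ne_iff.1 h
  unfold col
  rw [dif_pos h']
  exact h'.choose_spec

lemma pigeon (N : Ka → ℕ → La) : ∃ s : ℕ → La, ∀ T : ℕ → La,
    ∃ f g : Ka, N f = s ∧ N g = s ∧ col f g ∉ range T := by
  by_contra hn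
  push Not at hn
  choose T hT using hn
  have hinj : Function.Injective
      (fun f : Ka => ((N f, fun n => f (T (N f) n)) : (ℕ → La) × (ℕ → Bool))) := by
    intro f g hfg
    by_contra hne
    have h1 : N f = N g := congrArg Prod.fst hfg
    have h2 : (fun n => f (T (N f) n)) = fun n => g (T (N g) n) := congrArg Prod.snd hfg
    obtain ⟨n, hn⟩ := hT (N f) f g rfl h1.symm
    have h3 := congrFun h2 n
    rw [← h1] at h3
    simp only [hn] at h3
    exact col_spec hne h3
  have h := Cardinal.mk_le_of_injective hinj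
  simp only [Cardinal.mk_pi, Cardinal.mk_prod, Cardinal.mk_bool, Cardinal.prod_const,
    Cardinal.lift_id, Cardinal.mk_nat, Cardinal.two_power_aleph0,
    Cardinal.continuum_power_aleph0, Cardinal.continuum_mul_self] at h
  exact absurd h (not_le.2 (Cardinal.cantor _))

lemma exists_L (q : X) (i : Ka) : ∃ s : ℕ → La, L i (range s) ∈ q.1 := by
  classical
  by_cases h : L i ∅ ∈ q.1
  · exact ⟨fun _ => default, q.up h (L_mem i (countable_range _))
      fun w hw => Set.Subset.trans hw (empty_subset _)⟩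
  obtain ⟨c, hc, hce⟩ := q.disj (L_mem i countable_empty) h
  obtain ⟨S, I, hS, -, hst⟩ := q.sub hc
  obtain ⟨s, hs⟩ := (hS.insert default).exists_eq_range (insert_nonempty _ _)
  refine ⟨s, q.up hc (L_mem i (countable_range _)) fun w hw => ?_⟩
  rw [← hs]
  by_contra hn
  have h1 : Function.update w i ∅ ∈ c := by
    refine hst w hw _ fun j _ hj => ?_
    have : j ≠ i := by
      rintro rfl
      exact hn (hj.trans (subset_insert _ _))
    rw [Function.update_of_ne this]
  have h2 : Function.update w i ∅ ∈ c ∩ L i ∅ := ⟨h1, by simp [L]⟩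
  rw [hce] at h2
  exact h2

lemma compact_L {K : Set X} (hK : IsCompact K) (i : Ka) :
    ∃ s : ℕ → La, K ⊆ st (L i (range s)) := by
  refine hK.elim_directed_cover (fun s : ℕ → La => st (L i (range s)))
    (fun s => st_open (L_mem i (countable_range _))) (fun q _ => mem_iUnion.2 (exists_L q i)) ?_
  intro s t
  obtain ⟨u, hu⟩ := ((countable_range s).union (countable_range t)).exists_eq_range
    ((range_nonempty s).mono subset_union_left)
  refine ⟨u, fun q hq => q.up hq (L_mem i (countable_range _)) fun w hw => ?_,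
    fun q hq => q.up hq (L_mem i (countable_range _)) fun w hw => ?_⟩
  · exact hu ▸ Set.Subset.trans hw subset_union_left
  · exact hu ▸ Set.Subset.trans hw subset_union_right

def C : Set X := {q | ∀ (f g i : Ka) (S : Set La), S.Countable → L f ∅ ∈ q.1 → L g ∅ ∈ q.1 →
  L i ∅ ∉ q.1 → L i S ∈ q.1 → col f g ∈ S}

lemma C_closed : IsClosed C := by
  rw [← isOpen_compl_iff, isOpen_iff_forall_mem_open]
  intro q hq
  simp only [C, mem_compl_iff, mem_ofPred_eq, not_forall] at hq
  obtain ⟨f, g, i, S, hS, h1, h2, h3, h4, h5⟩ := hq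
  refine ⟨st (L f ∅) ∩ st (L g ∅) ∩ (st (L i ∅))ᶜ ∩ st (L i S), fun r hr hrC => ?_, ?_,
    ⟨⟨⟨h1, h2⟩, h3⟩, h4⟩⟩
  · exact h5 (hrC f g i S hS hr.1.1.1 hr.1.1.2 hr.1.2 hr.2)
  · exact (((st_open (L_mem f countable_empty)).inter (st_open (L_mem g countable_empty))).inter
      (st_closed (L_mem i countable_empty)).isOpen_compl).inter (st_open (L_mem i hS))

def A : Set X := C ∩ {q | ∃ i, L i ∅ ∉ q.1}

lemma A_kclosed {K : Set X} (hK : IsCompact K) : IsClosed ((Subtype.val : K → X) ⁻¹' A) := by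
  choose N hN using compact_L hK
  obtain ⟨s, hs⟩ := pigeon N
  obtain ⟨f, g, -, -, hfg⟩ := hs s
  have e : (Subtype.val : K → X) ⁻¹' A
      = (Subtype.val : K → X) ⁻¹' (C ∩ (st (L f ∅) ∩ st (L g ∅))ᶜ) := by
    ext q
    constructor
    · rintro ⟨hC, i, hi⟩
      refine ⟨hC, fun hU => ?_⟩
      have h1 : ∀ j, N j = s → L j ∅ ∈ q.1.1 := by
        intro j hj
        by_contra hn
        exact hfg (hj ▸ hC f g j _ (countable_range _) hU.1 hU.2 hn (hN j q.2))
      obtain ⟨f', g', hf', hg', h'⟩ := hs (N i)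
      exact h' (hC f' g' i _ (countable_range _) (h1 f' hf') (h1 g' hg') hi (hN i q.2))
    · rintro ⟨hC, hU⟩
      refine ⟨hC, ?_⟩
      by_contra hn
      simp only [mem_ofPred_eq, not_exists, not_not] at hn
      exact hU ⟨hn f, hn g⟩
  rw [e]
  refine IsClosed.preimage continuous_subtype_val (C_closed.inter ?_)
  exact ((st_open (L_mem f countable_empty)).inter
    (st_open (L_mem g countable_empty))).isClosed_compl

lemma A_not_closed : ¬ IsClosed A := by
  classical
  intro hA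
  obtain ⟨p, hp⟩ := extend (pure (fun _ => ∅ : W))
  have hpA : p ∈ Aᶜ := by
    rintro ⟨-, i, hi⟩
    exact hi (hp _ (L_mem i countable_empty) (by simp [L]))
  obtain ⟨_, ⟨b, hb, rfl⟩, hpb, hbA⟩ := basis.exists_subset_of_mem_open hpA hA.isOpen_compl
  obtain ⟨S, I, -, hI, hst⟩ := id hb
  have hc : (insert default (image2 col I I)).Countable := (hI.image2 hI _).insert _
  obtain ⟨T, hT⟩ := hc.exists_eq_range (insert_nonempty _ _)
  let x : W := fun i => if i ∈ I then ∅ else range T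
  have hx : ∀ i, (x i).Countable := by
    intro i
    by_cases h : i ∈ I
    · simp [x, h]
    · simp only [x, h, if_false]; exact countable_range _
  have hw : ∀ J : Finset Ka, ∃ w ∈ b, ∀ j ∈ J, w j = x j := by
    intro J
    have h1 : {w : W | ∀ j ∈ J, w j = ∅} ∈ B :=
      ⟨∅, J, countable_empty, J.countable_toSet, fun w hw w' H j hj => by
        rw [H j hj (hw j hj).le]; exact hw j hj⟩
    obtain ⟨w, hw1, hw2⟩ := p.ne (p.inter hpb (hp _ h1 (by simp)))
    refine ⟨fun j => if j ∈ J then x j else w j, hst w hw1 _ fun j hj _ => ?_,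
      fun j hj => if_pos hj⟩
    by_cases h : j ∈ J
    · simp only [h, if_true, x, hj]
      exact (hw2 j h).symm
    · simp only [h, if_false]
  choose w hwb hwx using hw
  obtain ⟨q, hq⟩ := extend (Filter.map w atTop)
  have hqb : b ∈ q.1 := hq b hb (Filter.mem_map.2 (Eventually.of_forall hwb))
  have hqx : ∀ i, {v : W | v i = x i} ∈ q.1 := by
    intro i
    refine hq _ (eq_mem i (hx i)) (Filter.mem_map.2 ?_)
    filter_upwards [eventually_ge_atTop {i}] with J hJ
    exact hwx J i (hJ (Finset.mem_singleton_self i))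
  have key : ∀ i S, L i S ∈ q.1 → x i ⊆ S := by
    intro i S h
    obtain ⟨v, hv1, hv2⟩ := q.ne (q.inter h (hqx i))
    have : v i = x i := hv2
    exact this ▸ hv1
  have key0 : ∀ i, L i ∅ ∈ q.1 → i ∈ I := by
    intro i h
    by_contra hn
    have := key i ∅ h
    simp only [x, hn, if_false] at this
    exact this (mem_range_self 0)
  refine hbA hqb ⟨fun f g i S' hS' hf hg hi hiS => ?_, ?_⟩
  · have hiI : i ∉ I := by
      intro h
      refine hi (q.up (hqx i) (L_mem i countable_empty) fun v hv => ?_)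
      have : v i = x i := hv
      simp only [x, h, if_true] at this
      exact this.le
    have := key i S' hiS
    simp only [x, hiI, if_false] at this
    exact this (hT ▸ mem_insert_of_mem _ (mem_image2_of_mem (key0 f hf) (key0 g hg)))
  · by_contra hn
    simp only [mem_ofPred_eq, not_exists, not_not] at hn
    obtain ⟨s, hs⟩ := pigeon (fun _ => T)
    obtain ⟨f, g, -, -, h⟩ := hs T
    exact h (hT ▸ mem_insert_of_mem _ (mem_image2_of_mem (key0 f (hn f)) (key0 g (hn g))))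

/-- There is a Tychonoff space with a cocompact pretty base that is not a k-space. -/
theorem result : ∃ (Y : Type) (_ : TopologicalSpace Y), T35Space Y ∧
    (∃ G : Set (Y → Bool), IsPretty Y G ∧ IsCocompact Y (cz '' G)) ∧ ¬ IsKSpace Y :=
  ⟨X, inferInstance, inferInstance, ⟨H, pretty, cocompact⟩,
    fun h => A_not_closed (h A fun _ hK => A_kclosed hK)⟩

end Pool.Agent.Results.MP_31ff53_gt.NotK
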